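import Mathlib

set_option autoImplicit false
open Set Filter Topology Function

namespace Pool.Agent.H.MP_158c61

variable {I C : Type} [DecidableEq I] [DecidableEq C] {r : I → C} {g : (I → Bool) → ℝ}

omit [DecidableEq I] in
theorem uc (hg : Continuous g) {ε : ℝ} (hε : 0 < ε) :
    ∃ u : Finset I, ∀ x y, (∀ i ∈ u, x i = y i) → |g x - g y| < ε := by
  obtain ⟨u, hu⟩ := (isClosed_le continuous_const (by fun_prop) : IsClosed {p : (I → Bool) × _ |
    ε ≤ |g p.1 - g p.2|}).isCompact.elim_finite_subfamily_closed (fun i => {p | p.1 i = p.2 i})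
    (fun i => isClosed_eq (by fun_prop) (by fun_prop)) (eq_empty_of_forall_notMem fun p hp =>
      hε.not_ge (by simpa [show p.1 = p.2 from funext (mem_iInter.1 hp.2)] using hp.1))
  exact ⟨u, fun p q k => not_le.1 fun e => eq_empty_iff_forall_notMem.1 hu (p, q) ⟨e, mem_iInter₂.2 k⟩⟩

def S (δ : ℝ) (g : (I → Bool) → ℝ) : Set I := {α | ∃ x c, δ < |g x - g (update x α c)|}

theorem Sf (hg : Continuous g) {δ : ℝ} (hδ : 0 < δ) : (S δ g).Finite := by
  obtain ⟨u, hu⟩ := uc hg hδ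
  exact u.finite_toSet.subset fun α ⟨x, c, k⟩ => by_contra fun e => k.not_gt
    (hu _ _ fun i hi => (update_of_ne (ne_of_mem_of_not_mem hi e) _ _).symm)

def N (r : I → C) (q : (C → Bool) → ℚ) (M : Set C) (δ ε η : ℝ) (t : Set I) :
    Set ((I → Bool) → ℝ) := {h | ∃ a, RightInverse a r ∧ t = a '' M ∧ (∀ x, |h x - q (x ∘ a)| ≤ ε) ∧
      S δ h ⊆ t ∧ (∀ x y, EqOn x y t → |h x - h y| ≤ η) ∧
        ∀ σ ∈ M, ∃ b c, δ + 5 * ε < |(q b : ℝ) - q (update b σ c)|}

theorem disc [Finite C] (hg : Continuous g) (q : (C → Bool) → ℚ) (M : Set C) {δ ε : ℝ} (η : ℝ)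
    (hδ : 0 < δ) (hε : 0 < ε) : ∀ᶠ h in 𝓝 g, ∀ t, h ∈ N r q M δ ε η t → t = S δ g := by
  obtain ⟨u, hu⟩ := uc hg hε
  have f : {z : I → Bool | ∃ b : C → Bool, ∀ α ∉ u, z α = b (r α)}.Finite :=
    (finite_range fun (p : (u → Bool) × (C → Bool)) α =>
      if h : α ∈ u then p.1 ⟨α, h⟩ else p.2 (r α)).subset fun z ⟨b, k⟩ =>
        ⟨(fun α => z α, b), funext fun α => by by_cases e : α ∈ u <;> simp [*]⟩
  filter_upwards [((Sf hg hδ).eventually_all (p := fun α h => α ∈ S δ h)).2 fun α ⟨x, c, k⟩ =>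
    (ContinuousAt.eventually_lt (f := fun _ => δ) (g := fun h : (I → Bool) → ℝ =>
      |h x - h (update x α c)|) continuousAt_const (by fun_prop) k).mono fun h e => ⟨x, c, e⟩,
    (f.eventually_all (p := fun z h => |h z - g z| < ε)).2 fun z _ => ContinuousAt.eventually_lt
      (f := fun h : (I → Bool) → ℝ => |h z - g z|) (Continuous.continuousAt (by fun_prop))
        continuousAt_const (by simpa)]
  rintro h k1 k2 _ ⟨a, a1, rfl, a2, a3, -, a4⟩
  refine subset_antisymm ?_ fun α e => a3 (k1 α e)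
  rintro _ ⟨σ, m, rfl⟩
  obtain ⟨b, c, k⟩ := a4 σ m
  have e1 : (b ∘ r) ∘ a = b := funext fun τ => congrArg b (a1 τ)
  have c1 := abs_le.1 (e1 ▸ a2 (b ∘ r))
  have c2 := abs_lt.1 (k2 (b ∘ r) ⟨b, fun _ _ => rfl⟩)
  rw [lt_abs] at k
  by_cases e : a σ ∈ u
  · have c3 := abs_le.1 (a2 (update (b ∘ r) (a σ) c))
    have c4 := abs_lt.1 (k2 (update (b ∘ r) (a σ) c) ⟨b, fun α k =>
      update_of_ne (ne_of_mem_of_not_mem e k).symm _ _⟩)
    rw [update_comp_eq_of_injective _ a1.injective, e1] at c3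
    exact ⟨b ∘ r, c, lt_abs.2 (k.imp (fun _ => by linarith) fun _ => by linarith)⟩
  · let z := u.piecewise (b ∘ r) (update b σ c ∘ r)
    have c3 := abs_le.1 (a2 z)
    have c4 := abs_lt.1 (k2 z ⟨_, fun α k => u.piecewise_eq_of_notMem _ _ k⟩)
    have c5 := abs_lt.1 (hu z (b ∘ r) fun α k => u.piecewise_eq_of_mem _ _ k)
    rw [show z ∘ a = update b σ c from funext fun τ => by
      by_cases k : a τ ∈ u
      · simp [z, k, a1 τ, update_of_ne (show τ ≠ σ from fun j => e (j ▸ k))]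
      · simp [z, k, a1 τ]] at c3
    rcases k with k | k <;> linarith

theorem diam {q : (C → Bool) → ℚ} {M : Set C} {δ ε η : ℝ} {t : Set I} {h : (I → Bool) → ℝ}
    (hg : g ∈ N r q M δ ε η t) (hh : h ∈ N r q M δ ε η t) (x : I → Bool) :
    |h x - g x| ≤ 2 * ε + 2 * η := by
  obtain ⟨a, a1, rfl, a2, -, a3, -⟩ := hg
  obtain ⟨a', b1, -, b2, -, b3, -⟩ := hh
  have e : EqOn x ((x ∘ a) ∘ r) (a '' M) := by
    rintro _ ⟨σ, -, rfl⟩
    exact (congrArg (x ∘ a) (a1 σ)).symm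
  have c1 := abs_le.1 (a2 ((x ∘ a) ∘ r))
  have c2 := abs_le.1 (b2 ((x ∘ a) ∘ r))
  have c3 := abs_le.1 (a3 _ _ e)
  have c4 := abs_le.1 (b3 _ _ e)
  rw [comp_assoc _ r, a1.comp_eq_id, comp_id] at c1
  rw [comp_assoc _ r, b1.comp_eq_id, comp_id] at c2
  exact abs_le.2 ⟨by linarith, by linarith⟩

theorem pw {δ : ℝ} (w : Finset I) (h : ∀ α ∈ w, α ∉ S δ g) (x y : I → Bool) :
    |g x - g (w.piecewise y x)| ≤ w.card * δ := by
  induction w using Finset.induction_on with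
  | empty => simp
  | insert α w k ih =>
    have c1 := abs_le.1 (ih fun β e => h β (Finset.mem_insert_of_mem e))
    have c2 := abs_le.1 (not_lt.1 fun e => h α (Finset.mem_insert_self _ _) ⟨w.piecewise y x, y α, e⟩)
    rw [Finset.piecewise_insert, Finset.card_insert_of_notMem k]
    push_cast
    exact abs_le.2 ⟨by linarith, by linarith⟩

theorem net [DecidableEq (ℕ → Bool)] (g : ((ℕ → Bool) → Bool) → ℝ) (hg : Continuous g) {V : Set _} (hV : V ∈ 𝓝 g) :
    ∃ (k : ℕ) (q : _) (M : _) (i j l : ℕ) (t : _), g ∈ N (fun α (i : Fin k) => α i) q M (1 / (i + 1))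
      (1 / (j + 1)) (1 / (l + 1)) t ∧ N (fun α (i : Fin k) => α i) q M (1 / (i + 1))
        (1 / (j + 1)) (1 / (l + 1)) t ⊆ V := by
  classical
  have T := tendsto_one_div_add_atTop_nhds_zero_nat (𝕜 := ℝ)
  have P := fun n => Nat.one_div_pos_of_nat (α := ℝ) (n := n)
  obtain ⟨J, J1, s, s1, s2⟩ := Filter.mem_pi.1 (nhds_pi.ge hV)
  obtain ⟨l, hl⟩ := ((mul_zero (4 : ℝ) ▸ T.const_mul 4).eventually ((J1.eventually_all.2 fun x _ =>
    eventually_closedBall_subset (s1 x)))).exists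
  obtain ⟨u, hu⟩ := uc hg (half_pos (P l))
  obtain ⟨i, hi⟩ := ((mul_zero (u.card : ℝ) ▸ T.const_mul (u.card : ℝ)).eventually_lt_const
    (half_pos (P l))).exists
  have f := Sf hg (P i)
  obtain ⟨j, j1, j2⟩ := ((T.eventually_lt_const (P l)).and ((f.eventually_all (p := fun α (j : ℕ) =>
    ∃ x c, (1 / (i + 1) + 7 * (1 / (j + 1)) : ℝ) < |g x - g (update x α c)|)).2 fun α ⟨x, c, k⟩ =>
      (((T.const_mul 7).const_add _).eventually_lt_const (by simpa using k)).mono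
        fun _ e => ⟨x, c, e⟩)).exists
  obtain ⟨v, hv⟩ := uc hg (half_pos (P j))
  have f' := f.union v.finite_toSet
  obtain ⟨k, hk⟩ := (((f'.prod f').eventually_all (l := atTop) (p := fun c (k : ℕ) =>
    (fun i : Fin k => c.1 i) = (fun i : Fin k => c.2 i) → c.1 = c.2)).2 fun c _ =>
      (em (c.1 = c.2)).elim (fun e => .of_forall fun _ _ => e) fun e => (ne_iff.1 e).elim fun n e =>
        (eventually_gt_atTop n).mono fun k a b => (e (congrFun b ⟨n, a⟩)).elim).exists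
  have : ∀ σ : Fin k → Bool, ∃ α : ℕ → Bool, (fun i : Fin k => α i) = σ ∧ ∀ β ∈ S (1 / (i + 1)) g ∪ v,
      (fun i : Fin k => β i) = σ → α = β := fun σ => by
    by_cases e : ∃ β ∈ S (1 / (i + 1)) g ∪ v, (fun i : Fin k => β i) = σ
    · obtain ⟨β, b1, b2⟩ := e
      exact ⟨β, b2, fun γ c1 c2 => hk (β, γ) ⟨b1, c1⟩ (b2.trans c2.symm)⟩
    · exact ⟨extend Fin.val σ fun _ => true, funext fun i => Fin.val_injective.extend_apply _ _ _,
        fun β b1 b2 => (e ⟨β, b1, b2⟩).elim⟩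
  choose a a1 a2 using this
  choose q hq using fun b : (Fin k → Bool) → Bool => exists_rat_near (g (b ∘ fun α i => α i))
    (half_pos (P j))
  have c : ∀ x, |g x - q (x ∘ a)| ≤ 1 / (j + 1) := fun x => by
    have c1 := abs_lt.1 (hq (x ∘ a))
    have c2 := abs_lt.1 (hv x ((x ∘ a) ∘ fun α i => α i) fun β b => congrArg x
      (a2 _ β (Or.inr b) rfl).symm)
    exact abs_le.2 ⟨by linarith, by linarith⟩
  have m : g ∈ N (fun α (i : Fin k) => α i) q ((fun α (i : Fin k) => α i) '' S (1 / (i + 1)) g)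
      (1 / (i + 1)) (1 / (j + 1)) (1 / (l + 1)) (S (1 / (i + 1)) g) := by
    refine ⟨a, a1, ?_, c, subset_rfl, fun x y e => ?_, ?_⟩
    · rw [image_image, image_congr fun β b => a2 _ β (Or.inl b) rfl, image_id']
    · have c1 := abs_le.1 (pw (g := g) (u.filter (· ∉ S (1 / (i + 1)) g))
        (fun _ k => (Finset.mem_filter.1 k).2) x y)
      have c2 := abs_lt.1 (hu _ y fun β b => show (u.filter (· ∉ S (1 / (i + 1)) g)).piecewise y x β = _ by
        by_cases k : β ∈ S (1 / (i + 1)) g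
        · rw [Finset.piecewise_eq_of_notMem _ _ _ (by simp only [Finset.mem_filter, k]; simp), e k]
        · exact Finset.piecewise_eq_of_mem _ _ _ (Finset.mem_filter.2 ⟨b, k⟩))
      have c3 := mul_le_mul_of_nonneg_right (Nat.cast_le.2 (u.card_filter_le
        (· ∉ S (1 / (i + 1)) g))) (P i).le
      exact abs_le.2 ⟨by linarith, by linarith⟩
    · rintro _ ⟨β, b, rfl⟩
      obtain ⟨x, d, e⟩ := j2 β b
      have c1 := abs_le.1 (c x)
      have c2 := abs_le.1 (c (update x β d))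
      rw [← a2 _ β (Or.inl b) rfl, update_comp_eq_of_injective _ (RightInverse.injective
        (f := a) (g := fun (α : ℕ → Bool) (i : Fin k) => α i) a1),
        a2 _ β (Or.inl b) rfl] at c2
      exact ⟨x ∘ a, d, lt_abs.2 ((lt_abs.1 e).imp (fun _ => by linarith) fun _ => by linarith)⟩
  exact ⟨k, q, _, i, j, l, _, m, fun h e => s2 fun x hx => hl x hx ((diam m e x).trans (by linarith))⟩

end Pool.Agent.H.MP_158c61
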